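import Pool.Agent.Lib.helper24.SubNim

set_option autoImplicit false

namespace Pool.Agent.Results.MP_052694_co.Periods

open Pool.Agent.Lib.helper24.SubNim

/-- For the subtraction set `{2,3,5,8,9,10}` the nim-sequence has period 26 while its
zero-indicator has period 13. -/
theorem result : ∃ G : ℕ → ℕ,
    (∀ n : ℕ, IsLeast {k : ℕ | ∀ s ∈ ({2, 3, 5, 8, 9, 10} : Finset ℕ), s ≤ n → G (n - s) ≠ k} (G n)) ∧
    IsLeast {p : ℕ | 0 < p ∧ ∃ n₀ : ℕ, ∀ n : ℕ, n₀ ≤ n → G (n + p) = G n} 26 ∧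
    IsLeast {p : ℕ | 0 < p ∧ ∃ n₀ : ℕ, ∀ n : ℕ, n₀ ≤ n → (G (n + p) = 0 ↔ G n = 0)} 13 := by
  let L : List ℕ := [0, 0, 1, 1, 2, 2, 3, 0, 4, 1, 3, 2, 4, 0, 0, 1, 1, 2, 2, 4, 0, 3, 1, 4, 2, 3]
  have hper : ∀ n k, tab L 0 26 (n + 26 * k) = tab L 0 26 n :=
    fun n k => tab_per_mul L 0 26 n k (Nat.zero_le _)
  have hsh : ∀ r p k, tab L 0 26 (r + 26 * k + p) = tab L 0 26 (r + p) := by
    intro r p k
    rw [add_right_comm, hper]
  refine ⟨tab L 0 26, mex_all _ _ 0 26 10 (by norm_num) (by decide)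
    (fun n hn => tab_per L 0 26 n hn) (by decide +kernel), ⟨⟨by norm_num, 0, fun n hn =>
      tab_per L 0 26 n hn⟩, ?_⟩, ⟨⟨by norm_num, 0, fun n _ => ?_⟩, ?_⟩⟩
  · rintro p ⟨hp, n₀, h⟩
    by_contra hlt
    have key : ∀ p < 26, 0 < p → ∃ r < 26, tab L 0 26 (r + p) ≠ tab L 0 26 r := by decide +kernel
    obtain ⟨r, _, hr⟩ := key p (by omega) hp
    have := h (r + 26 * n₀) (by omega)
    rw [hsh, hper] at this
    exact hr this
  · have key : ∀ r < 26, (tab L 0 26 (r + 13) = 0 ↔ tab L 0 26 r = 0) := by decide +kernel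
    have e : n = n % 26 + 26 * (n / 26) := (Nat.mod_add_div n 26).symm
    rw [e, hsh, hper]
    exact key _ (Nat.mod_lt _ (by norm_num))
  · rintro p ⟨hp, n₀, h⟩
    by_contra hlt
    have key : ∀ p < 13, 0 < p → ∃ r < 26, ¬ (tab L 0 26 (r + p) = 0 ↔ tab L 0 26 r = 0) := by
      decide +kernel
    obtain ⟨r, _, hr⟩ := key p (by omega) hp
    have := h (r + 26 * n₀) (by omega)
    rw [hsh, hper] at this
    exact hr this

end Pool.Agent.Results.MP_052694_co.Periods
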